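import Mathlib
import Pool.Agent.V11279.Dyn16

set_option autoImplicit false

/-!
# MP_0936a9_nt: the proportion of elements of `Gal(f^m(x) - 1)` with a fixed point tends to `0`
-/

namespace Pool.Agent.Results.MP_0936a9_nt.LimitZero

open Polynomial Filter

/-- `f(x) = x² - 1`. -/
noncomputable def f : ℚ[X] := X ^ 2 - 1

/-- The iterates: `f^0(x) = x` and `f^{m+1}(x) = f^m(x² - 1)`. -/
noncomputable def fIter : ℕ → ℚ[X]
  | 0 => X
  | m + 1 => (fIter m).comp f

/-- The proportion of the elements of the Galois group of `p` (the automorphism group of the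
splitting field of `p`) which fix at least one of the roots of `p` in the splitting field. -/
noncomputable def fixedProportion {F : Type} [Field F] (p : F[X]) : ℝ :=
  (Nat.card {σ : p.Gal // ∃ β : p.rootSet p.SplittingField, σ • β = β} : ℝ) / Nat.card p.Gal

/-- `δ_m`. -/
noncomputable def delta (m : ℕ) : ℝ := fixedProportion (fIter m - 1)

theorem fIter_eq (m : ℕ) : fIter m = Pool.Agent.V11279.Dyn.iter ℚ m := by
  induction m with
  | zero => rfl
  | succ m ih =>
    show (fIter m).comp f = (Pool.Agent.V11279.Dyn.iter ℚ m).comp (X ^ 2 - 1)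
    rw [ih, f]

/-- `δ_m → 0`. -/
theorem result : Tendsto delta atTop (nhds 0) := by
  have h1 : delta = fun m => Pool.Agent.V11279.Dyn.fixProp (Pool.Agent.V11279.Dyn.Pol m) := by
    funext m
    unfold delta
    rw [fIter_eq]
    rfl
  rw [h1]
  exact Pool.Agent.V11279.Dyn.fixProp_limit

end Pool.Agent.Results.MP_0936a9_nt.LimitZero
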